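import Pool.Agent.L7h99.BI.Stm

/-!
# Project BI, part CAP: the measure of spherical caps
-/

set_option autoImplicit false

namespace Pool.Agent.L7h56.BI

open MeasureTheory Set Filter Topology Real Pool.Agent.L7h99.BI
open scoped ENNReal Pointwise

variable {d : ℕ}

/-- the cap -/
def cap (n : E d) (r : ℝ) : Set (Sd d) := {σ : Sd d | ‖(σ : E d) - n‖ < r}

theorem cap_open (n : E d) (r : ℝ) : IsOpen (cap n r) :=
  isOpen_lt ((continuous_subtype_val.sub continuous_const).norm) continuous_const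

theorem cap_meas (n : E d) (r : ℝ) : MeasurableSet (cap n r) := (cap_open n r).measurableSet

theorem cap_mono (n : E d) {r r' : ℝ} (h : r ≤ r') : cap n r ⊆ cap n r' := fun _ hσ =>
  lt_of_lt_of_le hσ h

theorem mS_apply {s : Set (Sd d)} (hs : MeasurableSet s) :
    mS d s = (d : ℝ≥0∞) * volume (Ioo (0 : ℝ) 1 • (Subtype.val '' s)) := by
  unfold mS
  rw [Measure.toSphere_apply' _ hs, finrank_euclideanSpace_fin]

/-- the volume of the unit ball -/
noncomputable def om (d : ℕ) : ℝ := volume.real (Metric.ball (0 : E d) 1)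

theorem om_pos : 0 < om d :=
  ENNReal.toReal_pos (Metric.measure_ball_pos _ _ one_pos).ne' measure_ball_lt_top.ne

theorem vol_ball (x : E d) {ρ : ℝ} (hρ : 0 < ρ) :
    volume (Metric.ball x ρ) = ENNReal.ofReal (ρ ^ d * om d) := by
  rw [Measure.addHaar_ball_of_pos _ _ hρ, finrank_euclideanSpace_fin,
    ENNReal.ofReal_mul (by positivity), om, ofReal_measureReal measure_ball_lt_top.ne]

theorem cap_upper (hd : 2 ≤ d) (n : E d) (hn : ‖n‖ = 1) {r : ℝ} (hr : 0 < r) (hr3 : r ≤ 3) :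
    mS d (cap n r) ≤ ENNReal.ofReal (d * (2 ^ d * 4 * om d) * r ^ (d - 1)) := by
  rw [mS_apply (cap_meas n r)]
  have hsub : Ioo (0 : ℝ) 1 • (Subtype.val '' cap n r) ⊆
      ⋃ j ∈ Finset.range (⌊1 / r⌋₊ + 1), Metric.ball (((j : ℝ) * r) • n) (2 * r) := by
    rintro _ ⟨t, ht, _, ⟨σ, hσ, rfl⟩, rfl⟩
    have h0 : 0 ≤ t / r := div_nonneg ht.1.le hr.le
    have hj1 : (⌊t / r⌋₊ : ℝ) ≤ t / r := Nat.floor_le h0
    have hj2 : t / r < ⌊t / r⌋₊ + 1 := Nat.lt_floor_add_one _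
    rw [mem_iUnion₂]
    refine ⟨⌊t / r⌋₊, ?_, ?_⟩
    · rw [Finset.mem_range]
      refine Nat.lt_succ_of_le (Nat.floor_le_floor ?_)
      gcongr
      exact ht.2.le
    · rw [Metric.mem_ball, dist_eq_norm]
      have e : t • (σ : E d) - ((⌊t / r⌋₊ : ℝ) * r) • n =
          t • ((σ : E d) - n) + (t - (⌊t / r⌋₊ : ℝ) * r) • n := by
        rw [smul_sub, sub_smul]; abel
      show ‖t • (σ : E d) - ((⌊t / r⌋₊ : ℝ) * r) • n‖ < 2 * r
      rw [e]
      have h1 : ‖t • ((σ : E d) - n)‖ < r := by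
        rw [norm_smul, Real.norm_eq_abs, abs_of_pos ht.1]
        have h2 : ‖(σ : E d) - n‖ < r := hσ
        calc t * ‖(σ : E d) - n‖ ≤ 1 * ‖(σ : E d) - n‖ :=
              mul_le_mul_of_nonneg_right ht.2.le (norm_nonneg _)
          _ < r := by rwa [one_mul]
      have h2 : ‖(t - (⌊t / r⌋₊ : ℝ) * r) • n‖ ≤ r := by
        rw [norm_smul, hn, mul_one, Real.norm_eq_abs, abs_le]
        have h3 : (⌊t / r⌋₊ : ℝ) * r ≤ t := by
          rwa [le_div_iff₀ hr] at hj1
        have h4 : t < (⌊t / r⌋₊ + 1) * r := by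
          rwa [div_lt_iff₀ hr] at hj2
        constructor
        · linarith
        · nlinarith
      calc ‖t • ((σ : E d) - n) + (t - (⌊t / r⌋₊ : ℝ) * r) • n‖
          ≤ ‖t • ((σ : E d) - n)‖ + ‖(t - (⌊t / r⌋₊ : ℝ) * r) • n‖ := norm_add_le _ _
        _ < 2 * r := by linarith
  have h1 : volume (Ioo (0 : ℝ) 1 • (Subtype.val '' cap n r)) ≤
      ENNReal.ofReal ((1 / r + 1) * ((2 * r) ^ d * om d)) := by
    refine (measure_mono hsub).trans ((measure_biUnion_finset_le _ _).trans ?_)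
    rw [Finset.sum_congr rfl fun j _ => vol_ball _ (by positivity : 0 < 2 * r), Finset.sum_const,
      Finset.card_range, nsmul_eq_mul, ← ENNReal.ofReal_natCast, ← ENNReal.ofReal_mul (by positivity)]
    apply ENNReal.ofReal_le_ofReal
    have := Nat.floor_le (show 0 ≤ 1 / r by positivity)
    have h3 := (om_pos (d := d)).le
    push_cast
    gcongr
  calc (d : ℝ≥0∞) * volume (Ioo (0 : ℝ) 1 • (Subtype.val '' cap n r))
      ≤ ENNReal.ofReal d * ENNReal.ofReal ((1 / r + 1) * ((2 * r) ^ d * om d)) := by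
        rw [ENNReal.ofReal_natCast]
        gcongr
    _ = ENNReal.ofReal (d * ((1 / r + 1) * ((2 * r) ^ d * om d))) :=
        (ENNReal.ofReal_mul (by positivity)).symm
    _ ≤ _ := by
        apply ENNReal.ofReal_le_ofReal
        have hrd : r ^ d = r ^ (d - 1) * r := by
          rw [← pow_succ, Nat.sub_add_cancel (by omega)]
        have h3 := (om_pos (d := d)).le
        have e : (d : ℝ) * ((1 / r + 1) * ((2 * r) ^ d * om d)) =
            d * (2 ^ d * om d) * r ^ (d - 1) * (1 + r) := by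
          rw [mul_pow, hrd]
          field_simp
        rw [e]
        have e2 : (d : ℝ) * (2 ^ d * 4 * om d) * r ^ (d - 1) =
            d * (2 ^ d * om d) * r ^ (d - 1) * 4 := by ring
        rw [e2]
        have : 1 + r ≤ 4 := by linarith
        gcongr

theorem cap_lower0 (hd : 2 ≤ d) (n : E d) (hn : ‖n‖ = 1) {r : ℝ} (hr : 0 < r) (hr4 : r ≤ 1 / 4) :
    ENNReal.ofReal (d * (7 / 32 * (1 / 8) ^ d * om d) * r ^ (d - 1)) ≤ mS d (cap n r) := by
  rw [mS_apply (cap_meas n r)]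
  set J := Finset.Icc ⌈1 / (2 * r)⌉₊ ⌊(1 - r / 8) / r⌋₊ with hJ
  have hJc : 7 / 32 / r ≤ (J.card : ℝ) := by
    have h1 : (⌈1 / (2 * r)⌉₊ : ℝ) < 1 / (2 * r) + 1 := Nat.ceil_lt_add_one (by positivity)
    have h2 : (1 - r / 8) / r < (⌊(1 - r / 8) / r⌋₊ : ℝ) + 1 := Nat.lt_floor_add_one _
    rw [hJ, Nat.card_Icc]
    have h3 : 1 / (2 * r) + 9 / 8 + 7 / 32 / r ≤ 1 / r := by
      rw [← sub_nonneg]
      have e : 1 / r - (1 / (2 * r) + 9 / 8 + 7 / 32 / r) = 9 / 32 * (1 - 4 * r) / r := by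
        field_simp
        ring
      rw [e]
      apply div_nonneg _ hr.le
      apply mul_nonneg (by norm_num)
      linarith
    have h4 : (1 - r / 8) / r = 1 / r - 1 / 8 := by
      field_simp
    have h5 : ⌈1 / (2 * r)⌉₊ ≤ ⌊(1 - r / 8) / r⌋₊ + 1 := by
      have : (⌈1 / (2 * r)⌉₊ : ℝ) ≤ ((⌊(1 - r / 8) / r⌋₊ + 1 : ℕ) : ℝ) := by
        push_cast
        have : 0 ≤ 7 / 32 / r := by positivity
        linarith
      exact_mod_cast this
    rw [Nat.cast_sub h5]
    push_cast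
    linarith
  have hsub : (⋃ j ∈ J, Metric.ball (((j : ℝ) * r) • n) (r / 8)) ⊆
      Ioo (0 : ℝ) 1 • (Subtype.val '' cap n r) := by
    intro z hz
    obtain ⟨j, hj, hzb⟩ := mem_iUnion₂.1 hz
    rw [hJ, Finset.mem_Icc] at hj
    rw [Metric.mem_ball, dist_eq_norm] at hzb
    set a : ℝ := (j : ℝ) * r with ha
    have ha1 : 1 / 2 ≤ a := by
      have h1 : 1 / (2 * r) ≤ j := (Nat.le_ceil _).trans (by exact_mod_cast hj.1)
      rw [div_le_iff₀ (by positivity)] at h1
      rw [ha]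
      linarith
    have ha2 : a ≤ 1 - r / 8 := by
      have h1 : (j : ℝ) ≤ (1 - r / 8) / r :=
        le_trans (by exact_mod_cast hj.2) (Nat.floor_le (div_nonneg (by linarith) hr.le))
      rw [le_div_iff₀ hr] at h1
      exact h1
    have han : ‖a • n‖ = a := by
      rw [norm_smul, hn, mul_one, Real.norm_eq_abs, abs_of_nonneg (by linarith)]
    have hz1 : |‖z‖ - a| ≤ ‖z - a • n‖ := by
      have := abs_norm_sub_norm_le z (a • n)
      rwa [han] at this
    have hz2 := abs_le.1 hz1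
    have hzpos : 0 < ‖z‖ := by linarith
    have hz0 : z ≠ 0 := norm_pos_iff.1 hzpos
    have hσ : ‖(‖z‖⁻¹ : ℝ) • z‖ = 1 := by
      rw [norm_smul, norm_inv, norm_norm, inv_mul_cancel₀ hzpos.ne']
    refine ⟨‖z‖, ⟨hzpos, by linarith⟩, (‖z‖⁻¹ : ℝ) • z,
      ⟨⟨(‖z‖⁻¹ : ℝ) • z, by simpa using hσ⟩, ?_, rfl⟩, ?_⟩
    · show ‖(‖z‖⁻¹ : ℝ) • z - n‖ < r
      have hapos : 0 < a := by linarith
      have e : (‖z‖⁻¹ : ℝ) • z - n = (a⁻¹ : ℝ) • ((a - ‖z‖) • ((‖z‖⁻¹ : ℝ) • z) + (z - a • n)) := by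
        have e1 : a⁻¹ * ((a - ‖z‖) * ‖z‖⁻¹) = ‖z‖⁻¹ - a⁻¹ := by
          field_simp
        rw [smul_add, smul_smul (a - ‖z‖), smul_smul, e1, smul_sub, smul_smul,
          inv_mul_cancel₀ hapos.ne', one_smul, sub_smul]
        abel
      rw [e, norm_smul, norm_inv, Real.norm_eq_abs, abs_of_pos hapos]
      have h1 : ‖(a - ‖z‖) • ((‖z‖⁻¹ : ℝ) • z) + (z - a • n)‖ ≤ 2 * ‖z - a • n‖ := by
        refine (norm_add_le _ _).trans ?_
        rw [norm_smul, hσ, mul_one, Real.norm_eq_abs, abs_sub_comm]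
        linarith
      have h2 : a⁻¹ ≤ 2 := by
        rw [inv_le_comm₀ hapos (by norm_num)]
        linarith
      calc a⁻¹ * ‖(a - ‖z‖) • ((‖z‖⁻¹ : ℝ) • z) + (z - a • n)‖
          ≤ 2 * (2 * ‖z - a • n‖) := by gcongr
        _ < r := by linarith
    · show ‖z‖ • (‖z‖⁻¹ : ℝ) • z = z
      rw [smul_smul, mul_inv_cancel₀ hzpos.ne', one_smul]
  have hdis : (J : Set ℕ).PairwiseDisjoint fun j => Metric.ball (((j : ℝ) * r) • n) (r / 8) := by
    intro i _ j _ hij
    apply Metric.ball_disjoint_ball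
    rw [dist_eq_norm, ← sub_smul, norm_smul, hn, mul_one, Real.norm_eq_abs, ← sub_mul, abs_mul,
      abs_of_pos hr]
    have h1 : (1 : ℝ) ≤ |(i : ℝ) - j| := by
      have h2 : ((i : ℤ) - j) ≠ 0 := sub_ne_zero.2 (by exact_mod_cast hij)
      have h3 := Int.one_le_abs h2
      have h4 : ((1 : ℤ) : ℝ) ≤ ((|(i : ℤ) - j| : ℤ) : ℝ) := by exact_mod_cast h3
      push_cast at h4
      exact h4
    nlinarith
  have h1 : ENNReal.ofReal (7 / 32 / r * ((r / 8) ^ d * om d)) ≤
      volume (Ioo (0 : ℝ) 1 • (Subtype.val '' cap n r)) := by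
    refine le_trans ?_ (measure_mono hsub)
    rw [measure_biUnion_finset hdis fun j _ => measurableSet_ball,
      Finset.sum_congr rfl fun j _ => vol_ball _ (by positivity : 0 < r / 8), Finset.sum_const,
      nsmul_eq_mul, ← ENNReal.ofReal_natCast, ← ENNReal.ofReal_mul (by positivity)]
    apply ENNReal.ofReal_le_ofReal
    have h3 := (om_pos (d := d)).le
    gcongr
  calc ENNReal.ofReal (d * (7 / 32 * (1 / 8) ^ d * om d) * r ^ (d - 1))
      = ENNReal.ofReal (d * (7 / 32 / r * ((r / 8) ^ d * om d))) := by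
        congr 1
        have hrd : r ^ d = r ^ (d - 1) * r := by
          rw [← pow_succ, Nat.sub_add_cancel (by omega)]
        have e : (r / 8) ^ d = (1 / 8) ^ d * (r ^ (d - 1) * r) := by
          rw [← hrd, ← mul_pow]
          congr 1
          ring
        rw [e]
        field_simp
    _ = (d : ℝ≥0∞) * ENNReal.ofReal (7 / 32 / r * ((r / 8) ^ d * om d)) := by
        rw [ENNReal.ofReal_mul (by positivity), ENNReal.ofReal_natCast]
    _ ≤ _ := by gcongr

theorem t_CAP : S_CAP := by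
  intro d hd
  have hom := om_pos (d := d)
  have hdpos : (0 : ℝ) < d := by
    have : 0 < d := by omega
    exact_mod_cast this
  refine ⟨d * (7 / 32 * (1 / 8) ^ d * om d) * (1 / 12) ^ (d - 1), d * (2 ^ d * 4 * om d),
    by positivity, by positivity, fun n hn r hr hr3 => ⟨?_, cap_upper hd n hn hr hr3⟩⟩
  rcases le_or_gt r (1 / 4) with h | h
  · refine le_trans (ENNReal.ofReal_le_ofReal ?_) (cap_lower0 hd n hn hr h)
    have h1 : (1 / 12 : ℝ) ^ (d - 1) ≤ 1 := pow_le_one₀ (by norm_num) (by norm_num)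
    calc (d : ℝ) * (7 / 32 * (1 / 8) ^ d * om d) * (1 / 12) ^ (d - 1) * r ^ (d - 1)
        ≤ d * (7 / 32 * (1 / 8) ^ d * om d) * 1 * r ^ (d - 1) := by gcongr
      _ = _ := by ring
  · refine le_trans (ENNReal.ofReal_le_ofReal ?_)
      ((cap_lower0 hd n hn (by norm_num : (0 : ℝ) < 1 / 4) le_rfl).trans
        (measure_mono (cap_mono n h.le)))
    calc (d : ℝ) * (7 / 32 * (1 / 8) ^ d * om d) * (1 / 12) ^ (d - 1) * r ^ (d - 1)
        = d * (7 / 32 * (1 / 8) ^ d * om d) * (1 / 12 * r) ^ (d - 1) := by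
          rw [mul_pow]; ring
      _ ≤ d * (7 / 32 * (1 / 8) ^ d * om d) * (1 / 4) ^ (d - 1) := by
          gcongr
          linarith

end Pool.Agent.L7h56.BI
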