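import Pool.Agent.L7h99.BI.Stm

/-!
# Project BI, part MAX: the first touching point
-/

set_option autoImplicit false

namespace Pool.Agent.L7h56.BI

open MeasureTheory Set Filter Topology Real Pool.Agent.L7h99.BI

variable {d : ℕ}

theorem ph_pos (q : ℝ) (v : E d) : 0 < ph q v := by
  unfold ph
  positivity

theorem ph_cont (q : ℝ) : Continuous (ph (d := d) q) := by
  unfold ph
  refine Continuous.rpow_const (by fun_prop) fun v => Or.inl ?_
  positivity

/-- reduction of the position to a ball -/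
theorem period {T : ℝ} {f : ℝ → E d → E d → ℝ}
    (hper : ∀ t ∈ Ico 0 T, ∀ x v, ∀ i : Fin d,
      f t (x + EuclideanSpace.single i 1) v = f t x v) (x : E d) :
    ∃ x' ∈ Metric.closedBall (0 : E d) d, ∀ t ∈ Ico 0 T, ∀ v, f t x' v = f t x v := by
  let G : AddSubgroup (E d) :=
    { carrier := {y | ∀ t ∈ Ico 0 T, ∀ x v, f t (x + y) v = f t x v}
      add_mem' := by
        intro a b ha hb t ht x v
        rw [← add_assoc, hb t ht, ha t ht]
      zero_mem' := by
        intro t ht x v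
        rw [add_zero]
      neg_mem' := by
        intro a ha t ht x v
        have := ha t ht (x + -a) v
        rw [neg_add_cancel_right] at this
        exact this.symm }
  have hG : ∀ i : Fin d, EuclideanSpace.single i (1 : ℝ) ∈ G := fun i t ht x v => hper t ht x v i
  have hmem : -(∑ i : Fin d, ⌊x i⌋ • EuclideanSpace.single i (1 : ℝ)) ∈ G :=
    G.neg_mem (sum_mem fun i _ => zsmul_mem (hG i) _)
  refine ⟨x + -(∑ i : Fin d, ⌊x i⌋ • EuclideanSpace.single i (1 : ℝ)), ?_,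
    fun t ht v => hmem t ht x v⟩
  rw [mem_closedBall_zero_iff]
  have e : x + -(∑ i : Fin d, ⌊x i⌋ • EuclideanSpace.single i (1 : ℝ)) =
      ∑ i : Fin d, Int.fract (x i) • EuclideanSpace.single i (1 : ℝ) := by
    ext j
    have e1 : ∀ g : Fin d → ℝ,
        (∑ i : Fin d, g i • EuclideanSpace.single i (1 : ℝ) : E d).ofLp j = g j := by
      intro g
      simp [Pi.single_apply]
    have e2 : (∑ i : Fin d, ⌊x i⌋ • EuclideanSpace.single i (1 : ℝ) : E d) =
        ∑ i : Fin d, ((⌊x i⌋ : ℝ)) • EuclideanSpace.single i (1 : ℝ) :=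
      Finset.sum_congr rfl fun i _ => (Int.cast_smul_eq_zsmul ℝ _ _).symm
    rw [e1, e2, PiLp.add_apply, PiLp.neg_apply, e1, Int.fract, sub_eq_add_neg]
  rw [e]
  refine (norm_sum_le _ _).trans ?_
  calc ∑ i : Fin d, ‖Int.fract (x i) • EuclideanSpace.single i (1 : ℝ)‖ ≤ ∑ _i : Fin d, (1 : ℝ) := by
        refine Finset.sum_le_sum fun i _ => ?_
        rw [norm_smul, PiLp.norm_single, Real.norm_eq_abs,
          abs_of_nonneg (Int.fract_nonneg _)]
        simp only [norm_one, mul_one]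
        exact (Int.fract_lt_one _).le
    _ = d := by simp

theorem t_MAX : S_MAX := by
  intro d T f q A C₁ M hT hq hA hC₁ hper hcont hdec h0 hM hM0 htouch t₁ ht₁ x₁ v₁
  by_contra hne
  rw [not_lt] at hne
  set I : ℝ → ℝ := fun t => ∫ r in (0:ℝ)..t, M r with hI
  set bar : ℝ → ℝ := fun t => A * Real.exp (C₁ * I t) with hbar
  have hsub : Icc 0 t₁ ⊆ Ico 0 T := fun t ht => ⟨ht.1, ht.2.trans_lt ht₁.2⟩
  have hInn : ∀ t ∈ Ico 0 T, 0 ≤ I t := by
    intro t ht
    exact intervalIntegral.integral_nonneg ht.1 fun u hu => hM0 u ⟨hu.1, hu.2.trans_lt ht.2⟩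
  have hbarA : ∀ t ∈ Ico 0 T, A ≤ bar t := by
    intro t ht
    have h1 : 1 ≤ Real.exp (C₁ * I t) := Real.one_le_exp (mul_nonneg hC₁ (hInn t ht))
    calc A = A * 1 := (mul_one A).symm
      _ ≤ A * Real.exp (C₁ * I t) := by gcongr
  -- derivative of the barrier
  have hder : ∀ t ∈ Ioo 0 T, HasDerivAt bar (C₁ * M t * bar t) t := by
    intro t ht
    have hnb : Ico 0 T ∈ 𝓝 t := Ico_mem_nhds ht.1 ht.2
    have h1 : HasDerivAt I (M t) t := by
      apply intervalIntegral.integral_hasDerivAt_right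
      · apply ContinuousOn.intervalIntegrable
        rw [uIcc_of_le ht.1.le]
        exact hM.mono fun u hu => ⟨hu.1, hu.2.trans_lt ht.2⟩
      · exact ⟨Ioo 0 T, Ioo_mem_nhds ht.1 ht.2,
          (hM.mono Ioo_subset_Ico_self).aestronglyMeasurable measurableSet_Ioo⟩
      · exact hM.continuousAt hnb
    have h2 := ((h1.const_mul C₁).exp).const_mul A
    have h3 : C₁ * M t * bar t = A * (Real.exp (C₁ * I t) * (C₁ * M t)) := by
      show C₁ * M t * (A * Real.exp (C₁ * I t)) = A * (Real.exp (C₁ * I t) * (C₁ * M t))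
      ring
    rw [h3]
    exact h2
  have hbarc : ContinuousOn bar (Icc 0 t₁) := by
    have h1 : ContinuousOn I (Icc 0 t₁) := by
      have h2 : IntegrableOn M (uIcc 0 t₁) := by
        rw [uIcc_of_le ht₁.1]
        exact (hM.mono hsub).integrableOn_Icc
      have h3 := intervalIntegral.continuousOn_primitive_interval h2
      rwa [uIcc_of_le ht₁.1] at h3
    exact continuousOn_const.mul (Real.continuous_exp.comp_continuousOn (continuousOn_const.mul h1))
  -- the velocities at the touching points are bounded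
  obtain ⟨C, hC⟩ := hdec t₁ ht₁.1 ht₁.2
  have hvb : ∀ t ∈ Icc 0 t₁, ∀ x v, bar t * ph q v ≤ f t x v →
      v ∈ Metric.closedBall (0 : E d) (C / A) := by
    intro t ht x v hb
    rw [mem_closedBall_zero_iff, le_div_iff₀ hA]
    have h1 : A * ph q v ≤ C * ph (q + 1) v := by
      refine le_trans ?_ (hb.trans (hC t ht x v))
      exact mul_le_mul_of_nonneg_right (hbarA t (hsub ht)) (ph_pos q v).le
    have hb0 : (0 : ℝ) < 1 + ‖v‖ ^ 2 := by positivity
    have h2 : ph (q + 1) v = ph q v * (1 + ‖v‖ ^ 2) ^ (-(1 / 2 : ℝ)) := by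
      unfold ph
      rw [← Real.rpow_add hb0]
      congr 1
      ring
    rw [h2, mul_left_comm, mul_comm A] at h1
    have h3 := le_of_mul_le_mul_left h1 (ph_pos q v)
    have h4 : ‖v‖ ≤ (1 + ‖v‖ ^ 2) ^ (1 / 2 : ℝ) := by
      rw [← Real.sqrt_eq_rpow]
      exact Real.le_sqrt_of_sq_le (by linarith)
    have h5 : (1 + ‖v‖ ^ 2) ^ (-(1 / 2 : ℝ)) * (1 + ‖v‖ ^ 2) ^ (1 / 2 : ℝ) = 1 := by
      rw [← Real.rpow_add hb0]
      norm_num
    calc ‖v‖ * A ≤ (1 + ‖v‖ ^ 2) ^ (1 / 2 : ℝ) * (C * (1 + ‖v‖ ^ 2) ^ (-(1 / 2 : ℝ))) := by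
          gcongr
      _ = C * ((1 + ‖v‖ ^ 2) ^ (-(1 / 2 : ℝ)) * (1 + ‖v‖ ^ 2) ^ (1 / 2 : ℝ)) := by ring
      _ = C := by rw [h5, mul_one]
  -- the first touching point
  set K : Set (ℝ × E d × E d) :=
    Icc 0 t₁ ×ˢ (Metric.closedBall (0 : E d) d ×ˢ Metric.closedBall (0 : E d) (C / A)) with hK
  have hKc : IsCompact K :=
    isCompact_Icc.prod ((isCompact_closedBall _ _).prod (isCompact_closedBall _ _))
  have hKs : K ⊆ Ico 0 T ×ˢ univ := fun p hp => ⟨hsub hp.1, mem_univ _⟩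
  have hFc : ContinuousOn (fun p : ℝ × E d × E d => f p.1 p.2.1 p.2.2 - bar p.1 * ph q p.2.2) K := by
    refine (hcont.mono hKs).sub ((hbarc.comp continuousOn_fst fun p hp => hp.1).mul ?_)
    exact ((ph_cont q).comp (continuous_snd.comp continuous_snd)).continuousOn
  have hSc : IsCompact (K ∩ (fun p : ℝ × E d × E d => f p.1 p.2.1 p.2.2 - bar p.1 * ph q p.2.2) ⁻¹'
      Ici 0) :=
    hKc.of_isClosed_subset (hFc.preimage_isClosed_of_isClosed hKc.isClosed isClosed_Ici)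
      inter_subset_left
  have hSmem : ∀ t ∈ Icc 0 t₁, ∀ x v, bar t * ph q v ≤ f t x v → ∃ x' : E d,
      f t x' v = f t x v ∧ (t, x', v) ∈ K ∩ (fun p : ℝ × E d × E d =>
        f p.1 p.2.1 p.2.2 - bar p.1 * ph q p.2.2) ⁻¹' Ici 0 := by
    intro t ht x v hb
    obtain ⟨x', hx', hxx⟩ := period hper x
    refine ⟨x', hxx t (hsub ht) v, ⟨ht, hx', hvb t ht x v hb⟩, ?_⟩
    show 0 ≤ f t x' v - bar t * ph q v
    rw [hxx t (hsub ht) v]
    linarith
  obtain ⟨x₂, -, hx₂⟩ := hSmem t₁ ⟨ht₁.1, le_rfl⟩ x₁ v₁ hne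
  obtain ⟨⟨t₀, x₀, v₀⟩, ⟨hp0, hp0'⟩, hmin⟩ := hSc.exists_isMinOn ⟨_, hx₂⟩
    (continuous_fst (X := ℝ) (Y := E d × E d)).continuousOn
  have ht₀ : t₀ ∈ Icc 0 t₁ := hp0.1
  have hF0 : bar t₀ * ph q v₀ ≤ f t₀ x₀ v₀ := by
    have : 0 ≤ f t₀ x₀ v₀ - bar t₀ * ph q v₀ := hp0'
    linarith
  have hbefore : ∀ t, 0 ≤ t → t < t₀ → ∀ x v, f t x v < bar t * ph q v := by
    intro t ht htt x v
    by_contra h1
    rw [not_lt] at h1
    obtain ⟨x', -, hx'⟩ := hSmem t ⟨ht, htt.le.trans ht₀.2⟩ x v h1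
    have h2 := hmin hx'
    exact absurd h2 (not_le.2 htt)
  have ht₀pos : 0 < t₀ := by
    rcases ht₀.1.lt_or_eq with h1 | h1
    · exact h1
    · exfalso
      have h2 := h0 x₀ v₀
      rw [← h1] at hF0
      have h3 : bar 0 = A := by
        show A * Real.exp (C₁ * ∫ r in (0:ℝ)..0, M r) = A
        simp
      rw [h3] at hF0
      linarith
  have ht₀T : t₀ ∈ Ioo 0 T := ⟨ht₀pos, ht₀.2.trans_lt ht₁.2⟩
  have hle : ∀ x v, f t₀ x v ≤ bar t₀ * ph q v := by
    intro x v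
    have h1 : Tendsto (fun t => f t x v) (𝓝[<] t₀) (𝓝 (f t₀ x v)) := by
      have h2 : ContinuousAt (fun p : ℝ × E d × E d => f p.1 p.2.1 p.2.2) (t₀, x, v) :=
        hcont.continuousAt (prod_mem_nhds (Ico_mem_nhds ht₀T.1 ht₀T.2) univ_mem)
      have h3 : ContinuousAt (fun t : ℝ => ((t, x, v) : ℝ × E d × E d)) t₀ := by fun_prop
      exact (ContinuousAt.comp (f := fun t : ℝ => ((t, x, v) : ℝ × E d × E d)) h2 h3).tendsto.mono_left
        nhdsWithin_le_nhds
    have h2 : Tendsto (fun t => bar t * ph q v) (𝓝[<] t₀) (𝓝 (bar t₀ * ph q v)) :=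
      (((hder t₀ ht₀T).continuousAt.mul continuousAt_const).tendsto).mono_left nhdsWithin_le_nhds
    refine le_of_tendsto_of_tendsto h1 h2 ?_
    filter_upwards [Ioo_mem_nhdsLT ht₀pos] with t ht
    exact (hbefore t ht.1.le ht.2 x v).le
  have heq : f t₀ x₀ v₀ = bar t₀ * ph q v₀ := le_antisymm (hle x₀ v₀) hF0
  obtain ⟨L, hL, hLlt⟩ := htouch t₀ ht₀T x₀ v₀ (bar t₀)
    (lt_of_lt_of_le hA (hbarA t₀ (hsub ht₀))) hle heq
  -- the derivative along the characteristic
  have hpath : HasDerivAt (fun s : ℝ => ((s, x₀ + (s - t₀) • v₀) : ℝ × E d)) (1, v₀) t₀ := by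
    have h1 : HasDerivAt (fun s : ℝ => x₀ + (s - t₀) • v₀) v₀ t₀ := by
      have h2 := (((hasDerivAt_id t₀).sub_const t₀).smul_const v₀).const_add x₀
      simpa using h2
    exact (hasDerivAt_id t₀).prodMk h1
  have hL' : HasFDerivAt (fun p : ℝ × E d => f p.1 p.2 v₀) L
      ((fun s : ℝ => ((s, x₀ + (s - t₀) • v₀) : ℝ × E d)) t₀) := by
    simpa using hL
  have hu := (hL'.comp_hasDerivAt t₀ hpath).sub ((hder t₀ ht₀T).mul_const (ph q v₀))
  have hslope := (hasDerivWithinAt_iff_tendsto_slope' (s := Iio t₀) (by simp)).1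
    hu.hasDerivWithinAt
  have hge : 0 ≤ L (1, v₀) - C₁ * M t₀ * bar t₀ * ph q v₀ := by
    refine ge_of_tendsto hslope ?_
    filter_upwards [Ioo_mem_nhdsLT ht₀pos] with s hs
    rw [slope_def_field]
    apply div_nonneg_of_nonpos
    · have h1 := hbefore s hs.1.le hs.2 (x₀ + (s - t₀) • v₀) v₀
      simp only [Pi.sub_apply, Function.comp_apply, sub_self, zero_smul, add_zero, heq]
      linarith
    · linarith [hs.2]
  have : C₁ * M t₀ * (bar t₀ * ph q v₀) = C₁ * M t₀ * bar t₀ * ph q v₀ := by ring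
  linarith

end Pool.Agent.L7h56.BI
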