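import Pool.Agent.L7h99.BI.Stm2

/-!
# Project BI2, part MAX2: the first touching point of a solution and a general barrier
-/

set_option autoImplicit false

namespace Pool.Agent.L7h56.BI

open MeasureTheory Set Filter Topology Real Pool.Agent.L7h99.BI

variable {d : ℕ}

/-- reduction of the position to a ball -/
theorem period2 {J : Set ℝ} {f : ℝ → E d → E d → ℝ}
    (hper : ∀ t ∈ J, ∀ x v, ∀ i : Fin d,
      f t (x + EuclideanSpace.single i 1) v = f t x v) (x : E d) :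
    ∃ x' ∈ Metric.closedBall (0 : E d) d, ∀ t ∈ J, ∀ v, f t x' v = f t x v := by
  let G : AddSubgroup (E d) :=
    { carrier := {y | ∀ t ∈ J, ∀ x v, f t (x + y) v = f t x v}
      add_mem' := by
        intro a b ha hb t ht x v
        rw [← add_assoc, hb t ht, ha t ht]
      zero_mem' := by
        intro t ht x v
        rw [add_zero]
      neg_mem' := by
        intro a ha t ht x v
        have := ha t ht (x + -a) v
        rw [neg_add_cancel_right] at this
        exact this.symm }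
  have hG : ∀ i : Fin d, EuclideanSpace.single i (1 : ℝ) ∈ G := fun i t ht x v => hper t ht x v i
  have hmem : -(∑ i : Fin d, ⌊x i⌋ • EuclideanSpace.single i (1 : ℝ)) ∈ G :=
    G.neg_mem (sum_mem fun i _ => zsmul_mem (hG i) _)
  refine ⟨x + -(∑ i : Fin d, ⌊x i⌋ • EuclideanSpace.single i (1 : ℝ)), ?_,
    fun t ht v => hmem t ht x v⟩
  rw [mem_closedBall_zero_iff]
  have e : x + -(∑ i : Fin d, ⌊x i⌋ • EuclideanSpace.single i (1 : ℝ)) =
      ∑ i : Fin d, Int.fract (x i) • EuclideanSpace.single i (1 : ℝ) := by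
    ext j
    have e1 : ∀ g : Fin d → ℝ,
        (∑ i : Fin d, g i • EuclideanSpace.single i (1 : ℝ) : E d).ofLp j = g j := by
      intro g
      simp [Pi.single_apply]
    have e2 : (∑ i : Fin d, ⌊x i⌋ • EuclideanSpace.single i (1 : ℝ) : E d) =
        ∑ i : Fin d, ((⌊x i⌋ : ℝ)) • EuclideanSpace.single i (1 : ℝ) :=
      Finset.sum_congr rfl fun i _ => (Int.cast_smul_eq_zsmul ℝ _ _).symm
    rw [e1, e2, PiLp.add_apply, PiLp.neg_apply, e1, Int.fract, sub_eq_add_neg]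
  rw [e]
  refine (norm_sum_le _ _).trans ?_
  calc ∑ i : Fin d, ‖Int.fract (x i) • EuclideanSpace.single i (1 : ℝ)‖ ≤ ∑ _i : Fin d, (1 : ℝ) := by
        refine Finset.sum_le_sum fun i _ => ?_
        rw [norm_smul, PiLp.norm_single, Real.norm_eq_abs,
          abs_of_nonneg (Int.fract_nonneg _)]
        simp only [norm_one, mul_one]
        exact (Int.fract_lt_one _).le
    _ = d := by simp

theorem t_MAX2 : S_MAX2 := by
  intro d T₀ T f B B' hT hper hcont hB hB' hdec h0 htouch t₁ ht₁ x₁ v₁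
  by_contra hne
  rw [not_lt] at hne
  have hsub : Icc T₀ t₁ ⊆ Ico T₀ T := fun t ht => ⟨ht.1, ht.2.trans_lt ht₁.2⟩
  -- the velocities at the touching points are bounded
  obtain ⟨R, hR⟩ := hdec t₁ ht₁
  have hvb : ∀ t ∈ Icc T₀ t₁, ∀ x v, B t v ≤ f t x v →
      v ∈ Metric.closedBall (0 : E d) R := by
    intro t ht x v hb
    rw [mem_closedBall_zero_iff]
    by_contra h1
    rw [not_le] at h1
    exact absurd (hR t ht x v h1.le) (not_lt.2 hb)
  -- the first touching point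
  set K : Set (ℝ × E d × E d) :=
    Icc T₀ t₁ ×ˢ (Metric.closedBall (0 : E d) d ×ˢ Metric.closedBall (0 : E d) R) with hK
  have hKc : IsCompact K :=
    isCompact_Icc.prod ((isCompact_closedBall _ _).prod (isCompact_closedBall _ _))
  have hKs : K ⊆ Ico T₀ T ×ˢ univ := fun p hp => ⟨hsub hp.1, mem_univ _⟩
  have hFc : ContinuousOn (fun p : ℝ × E d × E d => f p.1 p.2.1 p.2.2 - B p.1 p.2.2) K := by
    refine (hcont.mono hKs).sub ?_
    have h1 : ContinuousOn (fun p : ℝ × E d × E d => ((p.1, p.2.2) : ℝ × E d)) K := by fun_prop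
    exact ContinuousOn.comp (g := fun p : ℝ × E d => B p.1 p.2) hB h1
      fun p hp => ⟨hsub hp.1, mem_univ _⟩
  have hSc : IsCompact (K ∩ (fun p : ℝ × E d × E d => f p.1 p.2.1 p.2.2 - B p.1 p.2.2) ⁻¹'
      Ici 0) :=
    hKc.of_isClosed_subset (hFc.preimage_isClosed_of_isClosed hKc.isClosed isClosed_Ici)
      inter_subset_left
  have hSmem : ∀ t ∈ Icc T₀ t₁, ∀ x v, B t v ≤ f t x v → ∃ x' : E d,
      f t x' v = f t x v ∧ (t, x', v) ∈ K ∩ (fun p : ℝ × E d × E d =>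
        f p.1 p.2.1 p.2.2 - B p.1 p.2.2) ⁻¹' Ici 0 := by
    intro t ht x v hb
    obtain ⟨x', hx', hxx⟩ := period2 hper x
    refine ⟨x', hxx t (hsub ht) v, ⟨ht, hx', hvb t ht x v hb⟩, ?_⟩
    show 0 ≤ f t x' v - B t v
    rw [hxx t (hsub ht) v]
    linarith
  obtain ⟨x₂, -, hx₂⟩ := hSmem t₁ ⟨ht₁.1, le_rfl⟩ x₁ v₁ hne
  obtain ⟨⟨t₀, x₀, v₀⟩, ⟨hp0, hp0'⟩, hmin⟩ := hSc.exists_isMinOn ⟨_, hx₂⟩
    (continuous_fst (X := ℝ) (Y := E d × E d)).continuousOn
  have ht₀ : t₀ ∈ Icc T₀ t₁ := hp0.1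
  have hF0 : B t₀ v₀ ≤ f t₀ x₀ v₀ := by
    have : 0 ≤ f t₀ x₀ v₀ - B t₀ v₀ := hp0'
    linarith
  have hbefore : ∀ t, T₀ ≤ t → t < t₀ → ∀ x v, f t x v < B t v := by
    intro t ht htt x v
    by_contra h1
    rw [not_lt] at h1
    obtain ⟨x', -, hx'⟩ := hSmem t ⟨ht, htt.le.trans ht₀.2⟩ x v h1
    have h2 := hmin hx'
    exact absurd h2 (not_le.2 htt)
  have ht₀pos : T₀ < t₀ := by
    rcases ht₀.1.lt_or_eq with h1 | h1
    · exact h1
    · exfalso
      have h2 := h0 x₀ v₀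
      rw [← h1] at hF0
      linarith
  have ht₀T : t₀ ∈ Ioo T₀ T := ⟨ht₀pos, ht₀.2.trans_lt ht₁.2⟩
  have hle : ∀ x v, f t₀ x v ≤ B t₀ v := by
    intro x v
    have h1 : Tendsto (fun t => f t x v) (𝓝[<] t₀) (𝓝 (f t₀ x v)) := by
      have h2 : ContinuousAt (fun p : ℝ × E d × E d => f p.1 p.2.1 p.2.2) (t₀, x, v) :=
        hcont.continuousAt (prod_mem_nhds (Ico_mem_nhds ht₀T.1 ht₀T.2) univ_mem)
      have h3 : ContinuousAt (fun t : ℝ => ((t, x, v) : ℝ × E d × E d)) t₀ := by fun_prop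
      exact (ContinuousAt.comp (f := fun t : ℝ => ((t, x, v) : ℝ × E d × E d)) h2 h3).tendsto.mono_left
        nhdsWithin_le_nhds
    have h2 : Tendsto (fun t => B t v) (𝓝[<] t₀) (𝓝 (B t₀ v)) :=
      ((hB' t₀ ht₀T v).continuousAt.tendsto).mono_left nhdsWithin_le_nhds
    refine le_of_tendsto_of_tendsto h1 h2 ?_
    filter_upwards [Ioo_mem_nhdsLT ht₀pos] with t ht
    exact (hbefore t ht.1.le ht.2 x v).le
  have heq : f t₀ x₀ v₀ = B t₀ v₀ := le_antisymm (hle x₀ v₀) hF0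
  obtain ⟨L, hL, hLlt⟩ := htouch t₀ ht₀T x₀ v₀ hle heq
  -- the derivative along the characteristic
  have hpath : HasDerivAt (fun s : ℝ => ((s, x₀ + (s - t₀) • v₀) : ℝ × E d)) (1, v₀) t₀ := by
    have h1 : HasDerivAt (fun s : ℝ => x₀ + (s - t₀) • v₀) v₀ t₀ := by
      have h2 := (((hasDerivAt_id t₀).sub_const t₀).smul_const v₀).const_add x₀
      simpa using h2
    exact (hasDerivAt_id t₀).prodMk h1
  have hL' : HasFDerivAt (fun p : ℝ × E d => f p.1 p.2 v₀) L
      ((fun s : ℝ => ((s, x₀ + (s - t₀) • v₀) : ℝ × E d)) t₀) := by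
    simpa using hL
  have hu := (hL'.comp_hasDerivAt t₀ hpath).sub (hB' t₀ ht₀T v₀)
  have hslope := (hasDerivWithinAt_iff_tendsto_slope' (s := Iio t₀) (by simp)).1
    hu.hasDerivWithinAt
  have hge : 0 ≤ L (1, v₀) - B' t₀ v₀ := by
    refine ge_of_tendsto hslope ?_
    filter_upwards [Ioo_mem_nhdsLT ht₀pos] with s hs
    rw [slope_def_field]
    apply div_nonneg_of_nonpos
    · have h1 := hbefore s hs.1.le hs.2 (x₀ + (s - t₀) • v₀) v₀
      simp only [Pi.sub_apply, Function.comp_apply, sub_self, zero_smul, add_zero, heq]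
      linarith
    · linarith [hs.2]
  linarith

end Pool.Agent.L7h56.BI
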