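import Pool.Agent.L7h99.BI.Stm

/-!
# Project BI, part SP: power integrals over the sphere
-/

set_option autoImplicit false

namespace Pool.Agent.L7h56.BI

open MeasureTheory Set Filter Topology Real Pool.Agent.L7h99.BI
open scoped ENNReal

variable {d : ℕ}

/-- upper bound of caps for all radii -/
theorem cap_all (h : S_CAP) (hd : 2 ≤ d) : ∃ c C : ℝ, 0 < c ∧ 0 < C ∧ ∀ n : E d, ‖n‖ = 1 →
    (∀ r : ℝ, 0 < r → r ≤ 3 → ENNReal.ofReal (c * r ^ (d - 1)) ≤
      mS d {σ : Sd d | ‖(σ : E d) - n‖ < r}) ∧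
    ∀ r : ℝ, 0 < r → mS d {σ : Sd d | ‖(σ : E d) - n‖ < r} ≤ ENNReal.ofReal (C * r ^ (d - 1)) := by
  obtain ⟨c, C, hc, hC, h1⟩ := h d hd
  refine ⟨c, C, hc, hC, fun n hn => ⟨fun r hr hr3 => (h1 n hn r hr hr3).1, fun r hr => ?_⟩⟩
  rcases le_or_gt r 3 with h3 | h3
  · exact (h1 n hn r hr h3).2
  · have hsub : {σ : Sd d | ‖(σ : E d) - n‖ < r} ⊆ {σ : Sd d | ‖(σ : E d) - n‖ < 3} := by
      intro σ _
      have h4 : ‖(σ : E d)‖ = 1 := by
        have := σ.2
        rwa [mem_sphere_zero_iff_norm] at this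
      show ‖(σ : E d) - n‖ < 3
      calc ‖(σ : E d) - n‖ ≤ ‖(σ : E d)‖ + ‖n‖ := norm_sub_le _ _
        _ < 3 := by rw [h4, hn]; norm_num
    refine (measure_mono hsub).trans ((h1 n hn 3 (by norm_num) le_rfl).2.trans ?_)
    apply ENNReal.ofReal_le_ofReal
    gcongr

theorem meas_rho (n : E d) : Measurable fun σ : Sd d => ‖(σ : E d) - n‖ :=
  ((continuous_subtype_val.sub continuous_const).norm).measurable

/-- a geometric series of annuli -/
theorem series {μ : Measure (Sd d)} (A : ℕ → Set (Sd d)) (hA : ∀ k, MeasurableSet (A k))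
    (g : Sd d → ℝ≥0∞) (hg : ∀ σ, g σ ≠ 0 → ∃ k, σ ∈ A k) {a q : ℝ} (ha : 0 ≤ a) (hq : 0 ≤ q)
    (hq1 : q < 1) (h : ∀ k, ∫⁻ σ in A k, g σ ∂μ ≤ ENNReal.ofReal (a * q ^ k)) :
    ∫⁻ σ, g σ ∂μ ≤ ENNReal.ofReal (a * (1 - q)⁻¹) := by
  have h1 : ∫⁻ σ, g σ ∂μ = ∫⁻ σ in ⋃ k, A k, g σ ∂μ := by
    rw [← lintegral_indicator (MeasurableSet.iUnion hA)]
    refine lintegral_congr fun σ => ?_
    by_cases hσ : σ ∈ ⋃ k, A k
    · rw [indicator_of_mem hσ]
    · rw [indicator_of_notMem hσ]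
      by_contra hne
      exact hσ (mem_iUnion.2 (hg σ hne))
  rw [h1]
  refine (lintegral_iUnion_le _ _).trans ((ENNReal.tsum_le_tsum h).trans (le_of_eq ?_))
  rw [← ENNReal.ofReal_tsum_of_nonneg (fun k => by positivity)
    ((summable_geometric_of_lt_one hq hq1).mul_left a), tsum_mul_left,
    tsum_geometric_of_lt_one hq hq1]

theorem setl_le {μ : Measure (Sd d)} {A : Set (Sd d)} (hA : MeasurableSet A) {g : Sd d → ℝ≥0∞}
    {u v : ℝ} (hu : 0 ≤ u) (h1 : ∀ σ ∈ A, g σ ≤ ENNReal.ofReal u)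
    (h2 : μ A ≤ ENNReal.ofReal v) : ∫⁻ σ in A, g σ ∂μ ≤ ENNReal.ofReal (u * v) := by
  refine (setLIntegral_mono' hA h1).trans ?_
  rw [setLIntegral_const, ENNReal.ofReal_mul hu]
  gcongr

/-- the part outside of a cap -/
theorem up (h : S_CAP) (hd : 2 ≤ d) {β : ℝ} (hβ : 0 < β) : ∃ C : ℝ, 0 < C ∧ ∀ n : E d, ‖n‖ = 1 →
    ∀ R : ℝ, 0 < R → ∫⁻ σ : Sd d, (if R ≤ ‖(σ : E d) - n‖ then
      ENNReal.ofReal (‖(σ : E d) - n‖ ^ (-((d : ℝ) - 1 + β))) else 0) ∂(mS d) ≤
        ENNReal.ofReal (C * R ^ (-β)) := by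
  obtain ⟨c, C, hc, hC, h1⟩ := cap_all h hd
  set q : ℝ := (2 : ℝ) ^ (-β) with hq
  have hq0 : 0 < q := by positivity
  have hq1 : q < 1 := Real.rpow_lt_one_of_one_lt_of_neg (by norm_num) (by linarith)
  have hd1 : (((d - 1 : ℕ) : ℝ)) = (d : ℝ) - 1 := by
    rw [Nat.cast_sub (by omega)]; simp
  refine ⟨C * 2 ^ (d - 1) * (1 - q)⁻¹, by
    have : 0 < 1 - q := by linarith
    positivity, fun n hn R hR => ?_⟩
  have hRpos : ∀ k : ℕ, 0 < 2 ^ k * R := fun k => by positivity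
  have hfin := series (μ := mS d)
    (fun k => {σ : Sd d | 2 ^ k * R ≤ ‖(σ : E d) - n‖ ∧ ‖(σ : E d) - n‖ < 2 * (2 ^ k * R)})
    (fun k => (measurableSet_le measurable_const (meas_rho n)).inter
      (measurableSet_lt (meas_rho n) measurable_const))
    (fun σ => if R ≤ ‖(σ : E d) - n‖ then
      ENNReal.ofReal (‖(σ : E d) - n‖ ^ (-((d : ℝ) - 1 + β))) else 0) (by
      intro σ hσ
      have hR' : R ≤ ‖(σ : E d) - n‖ := by
        by_contra hne
        exact hσ (if_neg hne)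
      obtain ⟨k, hk1, hk2⟩ := exists_nat_pow_near (show 1 ≤ ‖(σ : E d) - n‖ / R by
        rwa [le_div_iff₀ hR, one_mul]) (by norm_num : (1 : ℝ) < 2)
      refine ⟨k, ?_, ?_⟩
      · rwa [le_div_iff₀ hR] at hk1
      · rw [div_lt_iff₀ hR] at hk2
        calc ‖(σ : E d) - n‖ < 2 ^ (k + 1) * R := hk2
          _ = _ := by ring) (a := C * 2 ^ (d - 1) * R ^ (-β)) (q := q) (by positivity) hq0.le hq1 (by
      intro k
      have h2 := setl_le (μ := mS d)
        (A := {σ : Sd d | 2 ^ k * R ≤ ‖(σ : E d) - n‖ ∧ ‖(σ : E d) - n‖ < 2 * (2 ^ k * R)})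
        (g := fun σ => if R ≤ ‖(σ : E d) - n‖ then
          ENNReal.ofReal (‖(σ : E d) - n‖ ^ (-((d : ℝ) - 1 + β))) else 0)
        (u := (2 ^ k * R) ^ (-((d : ℝ) - 1 + β))) (v := C * (2 * (2 ^ k * R)) ^ (d - 1))
        ((measurableSet_le measurable_const (meas_rho n)).inter
          (measurableSet_lt (meas_rho n) measurable_const)) (by positivity) (by
          rintro σ ⟨h3, h4⟩
          show (if R ≤ ‖(σ : E d) - n‖ then _ else _) ≤ _
          split_ifs
          · apply ENNReal.ofReal_le_ofReal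
            apply Real.rpow_le_rpow_of_nonpos (hRpos k) h3
            have : (2 : ℝ) ≤ d := by exact_mod_cast hd
            linarith
          · exact zero_le) ((measure_mono fun σ hσ => hσ.2).trans
            ((h1 n hn).2 _ (by positivity)))
      refine h2.trans (le_of_eq ?_)
      congr 1
      have e1 : (2 ^ k * R) ^ (-((d : ℝ) - 1 + β)) =
          ((2 ^ k * R) ^ (d - 1))⁻¹ * (2 ^ k * R) ^ (-β) := by
        rw [neg_add, Real.rpow_add (hRpos k), Real.rpow_neg (hRpos k).le, ← hd1, Real.rpow_natCast]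
      have e2 : ((2 : ℝ) ^ k * R) ^ (-β) = q ^ k * R ^ (-β) := by
        rw [Real.mul_rpow (by positivity) hR.le, hq, ← Real.rpow_natCast, ← Real.rpow_natCast,
          ← Real.rpow_mul (by norm_num), ← Real.rpow_mul (by norm_num)]
        congr 2
        ring
      have h5 : ((2 : ℝ) ^ k * R) ^ (d - 1) ≠ 0 := by positivity
      rw [e1, e2, mul_pow 2 ((2 : ℝ) ^ k * R) (d - 1)]
      calc ((2 ^ k * R) ^ (d - 1))⁻¹ * (q ^ k * R ^ (-β)) *
            (C * (2 ^ (d - 1) * (2 ^ k * R) ^ (d - 1)))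
          = (((2 ^ k * R) ^ (d - 1))⁻¹ * (2 ^ k * R) ^ (d - 1)) *
              (C * 2 ^ (d - 1) * R ^ (-β) * q ^ k) := by ring
        _ = _ := by rw [inv_mul_cancel₀ h5, one_mul])
  refine hfin.trans (le_of_eq ?_)
  congr 1
  ring

/-- the part inside of a cap -/
theorem down (h : S_CAP) (hd : 2 ≤ d) {β : ℝ} (hβ : 0 < β) : ∃ C : ℝ, 0 < C ∧
    ∀ n : E d, ‖n‖ = 1 → ∀ R : ℝ, 0 < R →
    ∫⁻ σ : Sd d, (if 0 < ‖(σ : E d) - n‖ ∧ ‖(σ : E d) - n‖ < R then
      ENNReal.ofReal (‖(σ : E d) - n‖ ^ (-((d : ℝ) - 1) + β)) else 0) ∂(mS d) ≤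
        ENNReal.ofReal (C * R ^ β) := by
  obtain ⟨c, C, hc, hC, h1⟩ := cap_all h hd
  set q : ℝ := (2 : ℝ) ^ (-β) with hq
  have hq0 : 0 < q := by positivity
  have hq1 : q < 1 := Real.rpow_lt_one_of_one_lt_of_neg (by norm_num) (by linarith)
  have hd1 : (((d - 1 : ℕ) : ℝ)) = (d : ℝ) - 1 := by
    rw [Nat.cast_sub (by omega)]; simp
  refine ⟨C * 2 ^ (d - 1) * (1 - q)⁻¹, by
    have : 0 < 1 - q := by linarith
    positivity, fun n hn R hR => ?_⟩
  have hRpos : ∀ k : ℕ, 0 < (1 / 2) ^ k * R := fun k => by positivity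
  have hfin := series (μ := mS d)
    (fun k => {σ : Sd d | (1 / 2) ^ k * R / 2 ≤ ‖(σ : E d) - n‖ ∧
      ‖(σ : E d) - n‖ < (1 / 2) ^ k * R})
    (fun k => (measurableSet_le measurable_const (meas_rho n)).inter
      (measurableSet_lt (meas_rho n) measurable_const))
    (fun σ => if 0 < ‖(σ : E d) - n‖ ∧ ‖(σ : E d) - n‖ < R then
      ENNReal.ofReal (‖(σ : E d) - n‖ ^ (-((d : ℝ) - 1) + β)) else 0) (by
      intro σ hσ
      have hR' : 0 < ‖(σ : E d) - n‖ ∧ ‖(σ : E d) - n‖ < R := by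
        by_contra hne
        exact hσ (if_neg hne)
      obtain ⟨h2, h3⟩ := hR'
      obtain ⟨k, hk1, hk2⟩ := exists_nat_pow_near (show 1 ≤ R / ‖(σ : E d) - n‖ by
        rw [le_div_iff₀ h2, one_mul]; exact h3.le) (by norm_num : (1 : ℝ) < 2)
      rw [le_div_iff₀ h2] at hk1
      rw [div_lt_iff₀ h2] at hk2
      have h2k : (0 : ℝ) < 2 ^ k := by positivity
      have hhalf : ((1 : ℝ) / 2) ^ k * 2 ^ k = 1 := by
        rw [← mul_pow]; norm_num
      rcases hk1.lt_or_eq with h4 | h4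
      · refine ⟨k, ?_, ?_⟩
        · have h5 : (1 / 2 : ℝ) ^ k * R ≤ (1 / 2 : ℝ) ^ k * (2 ^ (k + 1) * ‖(σ : E d) - n‖) :=
            mul_le_mul_of_nonneg_left hk2.le (by positivity)
          have h6 : (1 / 2 : ℝ) ^ k * (2 ^ (k + 1) * ‖(σ : E d) - n‖) = 2 * ‖(σ : E d) - n‖ := by
            rw [pow_succ]
            linear_combination (2 * ‖(σ : E d) - n‖) * hhalf
          linarith
        · have h5 : (1 / 2 : ℝ) ^ k * (2 ^ k * ‖(σ : E d) - n‖) < (1 / 2 : ℝ) ^ k * R :=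
            mul_lt_mul_of_pos_left h4 (by positivity)
          have h6 : (1 / 2 : ℝ) ^ k * (2 ^ k * ‖(σ : E d) - n‖) = ‖(σ : E d) - n‖ := by
            linear_combination (‖(σ : E d) - n‖) * hhalf
          linarith
      · -- `2 ^ k ρ = R`
        have hk0 : k ≠ 0 := by
          rintro rfl
          rw [pow_zero, one_mul] at h4
          exact absurd h4 h3.ne
        obtain ⟨m, rfl⟩ := Nat.exists_eq_succ_of_ne_zero hk0
        have hhalf' : ((1 : ℝ) / 2) ^ m * 2 ^ m = 1 := by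
          rw [← mul_pow]; norm_num
        have h5 : (1 / 2 : ℝ) ^ m * R = 2 * ‖(σ : E d) - n‖ := by
          rw [← h4, Nat.succ_eq_add_one, pow_succ]
          linear_combination (2 * ‖(σ : E d) - n‖) * hhalf'
        refine ⟨m, ?_, ?_⟩
        · rw [h5]; linarith
        · rw [h5]; linarith) (a := C * 2 ^ (d - 1) * R ^ β) (q := q) (by positivity) hq0.le hq1 (by
      intro k
      have h2 := setl_le (μ := mS d)
        (A := {σ : Sd d | (1 / 2) ^ k * R / 2 ≤ ‖(σ : E d) - n‖ ∧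
          ‖(σ : E d) - n‖ < (1 / 2) ^ k * R})
        (g := fun σ => if 0 < ‖(σ : E d) - n‖ ∧ ‖(σ : E d) - n‖ < R then
          ENNReal.ofReal (‖(σ : E d) - n‖ ^ (-((d : ℝ) - 1) + β)) else 0)
        (u := ((1 / 2) ^ k * R / 2) ^ (-((d : ℝ) - 1)) * ((1 / 2) ^ k * R) ^ β)
        (v := C * ((1 / 2) ^ k * R) ^ (d - 1))
        ((measurableSet_le measurable_const (meas_rho n)).inter
          (measurableSet_lt (meas_rho n) measurable_const)) (by positivity) (by
          rintro σ ⟨h3, h4⟩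
          show (if 0 < ‖(σ : E d) - n‖ ∧ ‖(σ : E d) - n‖ < R then _ else _) ≤ _
          split_ifs with h5
          · apply ENNReal.ofReal_le_ofReal
            rw [Real.rpow_add h5.1]
            have h6 : ‖(σ : E d) - n‖ ^ (-((d : ℝ) - 1)) ≤
                ((1 / 2) ^ k * R / 2) ^ (-((d : ℝ) - 1)) := by
              apply Real.rpow_le_rpow_of_nonpos (by positivity) h3
              have : (2 : ℝ) ≤ d := by exact_mod_cast hd
              linarith
            have h7 : ‖(σ : E d) - n‖ ^ β ≤ ((1 / 2) ^ k * R) ^ β :=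
              Real.rpow_le_rpow (norm_nonneg _) h4.le hβ.le
            gcongr
          · exact zero_le) ((measure_mono fun σ hσ => hσ.2).trans
            ((h1 n hn).2 _ (by positivity)))
      refine h2.trans (le_of_eq ?_)
      congr 1
      have e1 : ((1 / 2) ^ k * R / 2) ^ (-((d : ℝ) - 1)) =
          2 ^ (d - 1) * (((1 / 2) ^ k * R) ^ (d - 1))⁻¹ := by
        rw [Real.rpow_neg (by positivity), ← hd1, Real.rpow_natCast, div_pow, inv_div,
          div_eq_mul_inv]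
      have e2 : ((1 / 2 : ℝ) ^ k * R) ^ β = q ^ k * R ^ β := by
        rw [Real.mul_rpow (by positivity) hR.le, hq, ← Real.rpow_natCast, ← Real.rpow_natCast,
          ← Real.rpow_mul (by norm_num), ← Real.rpow_mul (by norm_num), one_div,
          Real.inv_rpow (by norm_num), ← Real.rpow_neg (by norm_num)]
        congr 2
        ring
      rw [e1, e2]
      have h5 : ((1 / 2 : ℝ) ^ k * R) ^ (d - 1) ≠ 0 := by positivity
      field_simp)
  refine hfin.trans (le_of_eq ?_)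
  congr 1
  ring

theorem t_SP (h : S_CAP) : S_SP := by
  intro d hd s hs hs1
  have hd2 : (2 : ℝ) ≤ d := by exact_mod_cast hd
  constructor
  · obtain ⟨C₁, hC₁, h1⟩ := up h hd (β := 2 * s) (by linarith)
    obtain ⟨C₂, hC₂, h2⟩ := down h hd (β := 2 - 2 * s) (by linarith)
    refine ⟨C₁ + C₂, by positivity, fun n hn l hl => ?_⟩
    have hl' : 0 < l⁻¹ := inv_pos.2 hl
    have h3 := h1 n hn l⁻¹ hl'
    have h4 := h2 n hn l⁻¹ hl'
    have hpt : ∀ σ : Sd d, ENNReal.ofReal (min 1 (l ^ 2 * ‖(σ : E d) - n‖ ^ 2) *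
        ‖(σ : E d) - n‖ ^ (-((d : ℝ) - 1 + 2 * s))) ≤
        (if l⁻¹ ≤ ‖(σ : E d) - n‖ then
          ENNReal.ofReal (‖(σ : E d) - n‖ ^ (-((d : ℝ) - 1 + 2 * s))) else 0) +
        ENNReal.ofReal (l ^ 2) * (if 0 < ‖(σ : E d) - n‖ ∧ ‖(σ : E d) - n‖ < l⁻¹ then
          ENNReal.ofReal (‖(σ : E d) - n‖ ^ (-((d : ℝ) - 1) + (2 - 2 * s))) else 0) := by
      intro σ
      set ρ := ‖(σ : E d) - n‖ with hρ
      have hρ0 : 0 ≤ ρ := norm_nonneg _
      have hr0 : 0 ≤ ρ ^ (-((d : ℝ) - 1 + 2 * s)) := Real.rpow_nonneg hρ0 _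
      rcases le_or_gt l⁻¹ ρ with h5 | h5
      · rw [if_pos h5]
        refine le_trans (ENNReal.ofReal_le_ofReal ?_) le_self_add
        calc min 1 (l ^ 2 * ρ ^ 2) * ρ ^ (-((d : ℝ) - 1 + 2 * s))
            ≤ 1 * ρ ^ (-((d : ℝ) - 1 + 2 * s)) :=
              mul_le_mul_of_nonneg_right (min_le_left _ _) hr0
          _ = _ := one_mul _
      · rw [if_neg (not_le.2 h5), zero_add]
        rcases hρ0.lt_or_eq with h6 | h6
        · rw [if_pos ⟨h6, h5⟩, ← ENNReal.ofReal_mul (by positivity)]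
          apply ENNReal.ofReal_le_ofReal
          have e : ρ ^ (-((d : ℝ) - 1) + (2 - 2 * s)) =
              ρ ^ 2 * ρ ^ (-((d : ℝ) - 1 + 2 * s)) := by
            rw [← Real.rpow_natCast ρ 2, ← Real.rpow_add h6]
            congr 1
            push_cast
            ring
          rw [e, ← mul_assoc]
          exact mul_le_mul_of_nonneg_right (min_le_right _ _) hr0
        · rw [← h6]
          simp
    have hmeas : Measurable fun σ : Sd d => (if l⁻¹ ≤ ‖(σ : E d) - n‖ then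
          ENNReal.ofReal (‖(σ : E d) - n‖ ^ (-((d : ℝ) - 1 + 2 * s))) else 0) := by
      refine Measurable.ite (measurableSet_le measurable_const (meas_rho n)) ?_ measurable_const
      exact ((meas_rho n).pow_const _).ennreal_ofReal
    refine (lintegral_mono hpt).trans ?_
    rw [lintegral_add_left hmeas, lintegral_const_mul' _ _ ENNReal.ofReal_ne_top]
    have h5 : ENNReal.ofReal (l ^ 2) * ENNReal.ofReal (C₂ * l⁻¹ ^ (2 - 2 * s)) =
        ENNReal.ofReal (C₂ * l ^ (2 * s)) := by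
      rw [← ENNReal.ofReal_mul (by positivity)]
      congr 1
      have e : l⁻¹ ^ (2 - 2 * s) = l ^ (-(2 - 2 * s)) := by
        rw [Real.inv_rpow hl.le, ← Real.rpow_neg hl.le]
      rw [e, ← Real.rpow_natCast l 2]
      calc l ^ ((2 : ℕ) : ℝ) * (C₂ * l ^ (-(2 - 2 * s)))
          = C₂ * (l ^ ((2 : ℕ) : ℝ) * l ^ (-(2 - 2 * s))) := by ring
        _ = _ := by
          rw [← Real.rpow_add hl]
          congr 2
          push_cast
          ring
    have h6 : ENNReal.ofReal (C₁ * l⁻¹ ^ (-(2 * s))) = ENNReal.ofReal (C₁ * l ^ (2 * s)) := by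
      rw [Real.inv_rpow hl.le, ← Real.rpow_neg hl.le, neg_neg]
    calc _ ≤ ENNReal.ofReal (C₁ * l⁻¹ ^ (-(2 * s))) +
          ENNReal.ofReal (l ^ 2) * ENNReal.ofReal (C₂ * l⁻¹ ^ (2 - 2 * s)) := by gcongr
      _ = ENNReal.ofReal ((C₁ + C₂) * l ^ (2 * s)) := by
        rw [h5, h6, ← ENNReal.ofReal_add (by positivity) (by positivity)]
        congr 1
        ring
  · intro K
    obtain ⟨c, C, hc, hC, h1⟩ := cap_all h hd
    have hd1 : (((d - 1 : ℕ) : ℝ)) = (d : ℝ) - 1 := by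
      rw [Nat.cast_sub (by omega)]; simp
    -- the ratio
    obtain ⟨M, hM2, hMC⟩ : ∃ M : ℝ, 2 ≤ M ∧ C / M ≤ c / 2 := by
      refine ⟨max 2 (2 * C / c), le_max_left _ _, ?_⟩
      have h2 : 2 * C / c ≤ max 2 (2 * C / c) := le_max_right _ _
      have h3 : 0 < max 2 (2 * C / c) := lt_of_lt_of_le (by norm_num) (le_max_left _ _)
      rw [div_le_iff₀ h3]
      rw [div_le_iff₀ hc] at h2
      linarith
    have hMpos : 0 < M := by linarith
    have hMd : C / M ^ (d - 1) ≤ c / 2 := by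
      refine le_trans ?_ hMC
      have : M ≤ M ^ (d - 1) := by
        calc M = M ^ 1 := (pow_one M).symm
          _ ≤ M ^ (d - 1) := pow_le_pow_right₀ (by linarith) (by omega)
      gcongr
    -- the radius
    obtain ⟨R, hR0, hR2, hRK⟩ : ∃ R : ℝ, 0 < R ∧ R ≤ 1 / 2 ∧ K ≤ c / 2 * R ^ (-(2 * s)) := by
      have ht : Tendsto (fun R : ℝ => c / 2 * R ^ (-(2 * s))) (𝓝[>] 0) atTop := by
        have h2 : Tendsto (fun x : ℝ => x ^ (2 * s)) atTop atTop :=
          tendsto_rpow_atTop (by linarith)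
        have h3 := (h2.comp tendsto_inv_nhdsGT_zero).const_mul_atTop (show 0 < c / 2 by positivity)
        refine h3.congr' ?_
        filter_upwards [self_mem_nhdsWithin] with R hR
        have hR' : (0 : ℝ) < R := hR
        simp only [Function.comp]
        rw [Real.inv_rpow hR'.le, ← Real.rpow_neg hR'.le]
      obtain ⟨R, hR⟩ := ((ht.eventually_ge_atTop K).and
        (Ioo_mem_nhdsGT (show (0 : ℝ) < 1 / 2 by norm_num))).exists
      exact ⟨R, hR.2.1, hR.2.2.le, hR.1⟩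
    have ht0 : 0 < R / M := by positivity
    have htR : R / M ≤ R / 2 := by gcongr
    refine ⟨R / M, ht0, by linarith, fun n hn => ?_⟩
    set A : Set (Sd d) := {σ : Sd d | ‖(σ : E d) - n‖ < R} \ {σ : Sd d | ‖(σ : E d) - n‖ < R / M}
      with hA
    have hAm : MeasurableSet A := (measurableSet_lt (meas_rho n) measurable_const).diff
      (measurableSet_lt (meas_rho n) measurable_const)
    have h2 : ENNReal.ofReal (c / 2 * R ^ (d - 1)) ≤ mS d A := by
      have h3 := (h1 n hn).1 R hR0 (by linarith)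
      have h4 := (h1 n hn).2 (R / M) ht0
      have h5 : mS d {σ : Sd d | ‖(σ : E d) - n‖ < R} ≤
          mS d A + mS d {σ : Sd d | ‖(σ : E d) - n‖ < R / M} := by
        refine (measure_mono ?_).trans (measure_union_le _ _)
        intro σ hσ
        by_cases h6 : σ ∈ {σ : Sd d | ‖(σ : E d) - n‖ < R / M}
        · exact Or.inr h6
        · exact Or.inl ⟨hσ, h6⟩
      have h6 : ENNReal.ofReal (C * (R / M) ^ (d - 1)) ≤ ENNReal.ofReal (c / 2 * R ^ (d - 1)) := by
        apply ENNReal.ofReal_le_ofReal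
        rw [div_pow]
        calc C * (R ^ (d - 1) / M ^ (d - 1)) = (C / M ^ (d - 1)) * R ^ (d - 1) := by ring
          _ ≤ _ := by gcongr
      have h7 : ENNReal.ofReal (c / 2 * R ^ (d - 1)) + ENNReal.ofReal (c / 2 * R ^ (d - 1)) ≤
          mS d A + ENNReal.ofReal (c / 2 * R ^ (d - 1)) := by
        calc ENNReal.ofReal (c / 2 * R ^ (d - 1)) + ENNReal.ofReal (c / 2 * R ^ (d - 1))
            = ENNReal.ofReal (c * R ^ (d - 1)) := by
              rw [← ENNReal.ofReal_add (by positivity) (by positivity)]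
              congr 1
              ring
          _ ≤ mS d {σ : Sd d | ‖(σ : E d) - n‖ < R} := h3
          _ ≤ mS d A + mS d {σ : Sd d | ‖(σ : E d) - n‖ < R / M} := h5
          _ ≤ mS d A + ENNReal.ofReal (c / 2 * R ^ (d - 1)) := by
              gcongr
              exact h4.trans h6
      exact (ENNReal.add_le_add_iff_right ENNReal.ofReal_ne_top).1 h7
    calc ENNReal.ofReal K ≤ ENNReal.ofReal (R ^ (-((d : ℝ) - 1 + 2 * s)) * (c / 2 * R ^ (d - 1))) := by
          apply ENNReal.ofReal_le_ofReal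
          refine hRK.trans (le_of_eq ?_)
          have e1 : R ^ (-((d : ℝ) - 1 + 2 * s)) = (R ^ (d - 1))⁻¹ * R ^ (-(2 * s)) := by
            rw [neg_add, Real.rpow_add hR0, Real.rpow_neg hR0.le, ← hd1, Real.rpow_natCast]
          rw [e1]
          have : R ^ (d - 1) ≠ 0 := by positivity
          field_simp
      _ = ENNReal.ofReal (R ^ (-((d : ℝ) - 1 + 2 * s))) * ENNReal.ofReal (c / 2 * R ^ (d - 1)) :=
          ENNReal.ofReal_mul (by positivity)
      _ ≤ ENNReal.ofReal (R ^ (-((d : ℝ) - 1 + 2 * s))) * mS d A := by gcongr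
      _ = ∫⁻ _ in A, ENNReal.ofReal (R ^ (-((d : ℝ) - 1 + 2 * s))) ∂(mS d) := by
          rw [setLIntegral_const]
      _ ≤ ∫⁻ σ in A, (if R / M ≤ ‖(σ : E d) - n‖ ∧ ‖(σ : E d) - n‖ ≤ 1 / 2 then
            ENNReal.ofReal (‖(σ : E d) - n‖ ^ (-((d : ℝ) - 1 + 2 * s))) else 0) ∂(mS d) := by
          refine setLIntegral_mono' hAm fun σ hσ => ?_
          have h8 : ‖(σ : E d) - n‖ < R := hσ.1
          have h9 : R / M ≤ ‖(σ : E d) - n‖ := not_lt.1 hσ.2
          rw [if_pos ⟨h9, by linarith⟩]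
          apply ENNReal.ofReal_le_ofReal
          apply Real.rpow_le_rpow_of_nonpos (by linarith) h8.le
          linarith
      _ ≤ _ := setLIntegral_le_lintegral _ _

end Pool.Agent.L7h56.BI
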